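import Pool.Agent.H798.NM.Lp

/-!
The final statements in Euclidean space.
-/

set_option autoImplicit false

open MeasureTheory Set Filter Topology
open scoped Matrix BigOperators Pointwise RealInnerProductSpace

namespace Pool.Agent.H798.NM

open Pool.Agent.H771.LT (J Bdy co)

variable {n : ℕ} {K : Set (EuclideanSpace ℝ (Fin n))}

/-- the constant -/
noncomputable def cst (β : ℝ) : ℝ := 4 * √((β + 1) / (3 * β - 1))

lemma cst_nonneg (β : ℝ) : 0 ≤ cst β := by unfold cst; positivity

lemma cst_gt {β : ℝ} (hβ : 1 ≤ β) : 4 / √3 < cst β := by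
  unfold cst
  rw [div_eq_mul_inv, ← Real.sqrt_inv]
  refine mul_lt_mul_of_pos_left (Real.sqrt_lt_sqrt (by norm_num) ?_) (by norm_num)
  rw [inv_eq_one_div, div_lt_div_iff₀ (by norm_num) (by linarith)]
  linarith

/-- the volume product for an interior point `z` -/
theorem product_euclid (hc : IsCompact K) (hv : Convex ℝ K) {z : EuclideanSpace ℝ (Fin n)}
    (h0 : z ∈ interior K) {β : ℝ} (hβ : 1 ≤ β) {c : EuclideanSpace ℝ (Fin n)}
    (hsym : ∀ x ∈ K, c - β⁻¹ • (x - c) ∈ K) :
    cst β ^ n / n.factorial ≤ volume.real K * volume.real (W679AM.plz K z) := by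
  have hb := W679AM.cor_body hc hv h0
  have hsym' : ∀ x ∈ W679AM.cor K z, WithLp.ofLp (c - z) - β⁻¹ • (x - WithLp.ofLp (c - z)) ∈
      W679AM.cor K z := by
    intro x hx
    have h1 := hsym _ hx
    show WithLp.toLp 2 (WithLp.ofLp (c - z) - β⁻¹ • (x - WithLp.ofLp (c - z))) + z ∈ K
    have e : (WithLp.toLp 2 (WithLp.ofLp (c - z) - β⁻¹ • (x - WithLp.ofLp (c - z))) :
        EuclideanSpace ℝ (Fin n)) + z = c - β⁻¹ • (WithLp.toLp 2 x + z - c) := by
      have e1 : (WithLp.toLp 2 (WithLp.ofLp (c - z) - β⁻¹ • (x - WithLp.ofLp (c - z))) :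
        EuclideanSpace ℝ (Fin n)) = (c - z) - β⁻¹ • (WithLp.toLp 2 x - (c - z)) := rfl
      rw [e1]
      module
    rw [e]
    exact h1
  have h1 := product hb hβ hsym'
  have hmp : MeasurePreserving (WithLp.toLp 2 : (Fin n → ℝ) → EuclideanSpace ℝ (Fin n)) :=
    PiLp.volume_preserving_toLp (Fin n)
  have hv1 : volume (W679AM.cor K z) = volume K := by
    have e : W679AM.cor K z = WithLp.toLp 2 ⁻¹' ((fun x => x + z) ⁻¹' K) := rfl
    rw [e, hmp.measure_preimage, measure_preimage_add_right]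
    exact (hc.measurableSet.preimage (measurable_add_const z)).nullMeasurableSet
  have hv2 : volume (H712MA.GB.plr (W679AM.cor K z)) = volume (W679AM.plz K z) := by
    rw [← W679AM.plz_cor]
    exact hmp.measure_preimage (W679AM.plz_closed K z).measurableSet.nullMeasurableSet
  rw [hv1, hv2] at h1
  have hfK : volume K ≠ ⊤ := hc.measure_lt_top.ne
  have hfP := W679AM.plz_fin hc hv h0
  have hp : volume K * volume (W679AM.plz K z) =
      ENNReal.ofReal (volume.real K * volume.real (W679AM.plz K z)) := by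
    rw [ENNReal.ofReal_mul measureReal_nonneg, ofReal_measureReal hfK, ofReal_measureReal hfP]
  rw [hp, add_comm 1 β] at h1
  exact (ENNReal.ofReal_le_ofReal_iff (by positivity)).1 h1

/-- the support function in coordinates -/
lemma supp_co (K : Set (EuclideanSpace ℝ (Fin n))) (y : Fin n → ℝ) :
    sSup ((fun x => ⟪x, (WithLp.toLp 2 y : EuclideanSpace ℝ (Fin n))⟫) '' K) =
      W679AM.hs (co K) y := by
  unfold W679AM.hs co
  rw [image_image]
  congr 1
  exact image_congr fun x _ => Pool.Agent.H771.LT.inner_co _ _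

lemma cor_zero (K : Set (EuclideanSpace ℝ (Fin n))) : W679AM.cor K 0 = co K := by
  rw [Pool.Agent.H771.LT.co_eq]
  ext v
  show WithLp.toLp 2 v + (0 : EuclideanSpace ℝ (Fin n)) ∈ K ↔ _
  rw [add_zero]
  rfl

/-- the Mahler volume and the volume product -/
lemma inf_eq (hc : IsCompact K) (hv : Convex ℝ K)
    (h0 : (0 : EuclideanSpace ℝ (Fin n)) ∈ interior K) :
    ∫⁻ y : EuclideanSpace ℝ (Fin n), ENNReal.ofReal (Real.exp (-sSup ((fun x => ⟪x, y⟫) '' K))) =
      n.factorial * volume (H712MA.GB.plr (co K)) := by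
  have hb : W679AM.OBody (co K) := cor_zero K ▸ W679AM.cor_body hc hv h0
  rw [← Pool.Agent.H771.LT.lint_co, ← lint_hs hb]
  refine lintegral_congr fun y => ?_
  rw [supp_co]

lemma inf_ge (hn : 1 ≤ n) (hc : IsCompact K) (hv : Convex ℝ K)
    (h0 : (0 : EuclideanSpace ℝ (Fin n)) ∈ interior K) :
    ENNReal.ofReal (cst n ^ n) ≤ volume K * ∫⁻ y : EuclideanSpace ℝ (Fin n),
      ENNReal.ofReal (Real.exp (-sSup ((fun x => ⟪x, y⟫) '' K))) := by
  obtain ⟨c, hsym⟩ := minkowski_point hn hc hv
  have hn1 : (1 : ℝ) ≤ n := by exact_mod_cast hn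
  have hb : W679AM.OBody (co K) := cor_zero K ▸ W679AM.cor_body hc hv h0
  have h1 := product_euclid hc hv h0 hn1 hsym
  have hfK : volume K ≠ ⊤ := hc.measure_lt_top.ne
  have hfP := W679AM.plz_fin hc hv h0
  have hmp : MeasurePreserving (WithLp.toLp 2 : (Fin n → ℝ) → EuclideanSpace ℝ (Fin n)) :=
    PiLp.volume_preserving_toLp (Fin n)
  have hv2 : volume (H712MA.GB.plr (co K)) = volume (W679AM.plz K 0) := by
    rw [← cor_zero, ← W679AM.plz_cor]
    exact hmp.measure_preimage (W679AM.plz_closed K 0).measurableSet.nullMeasurableSet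
  rw [inf_eq hc hv h0, hv2]
  have hp : volume K * volume (W679AM.plz K 0) =
      ENNReal.ofReal (volume.real K * volume.real (W679AM.plz K 0)) := by
    rw [ENNReal.ofReal_mul measureReal_nonneg, ofReal_measureReal hfK, ofReal_measureReal hfP]
  have e : volume K * (n.factorial * volume (W679AM.plz K 0)) =
      ENNReal.ofReal (n.factorial * (volume.real K * volume.real (W679AM.plz K 0))) := by
    rw [mul_left_comm, hp, ENNReal.ofReal_mul (by positivity : (0 : ℝ) ≤ n.factorial),
      ENNReal.ofReal_natCast]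
  rw [e]
  refine ENNReal.ofReal_le_ofReal ?_
  rw [div_le_iff₀ (by positivity)] at h1
  linarith

/-- the support function is nonincreasing in the direction of the half space -/
lemma supp_shift (hc : IsCompact K) (hne : K.Nonempty) {v : EuclideanSpace ℝ (Fin n)}
    (hv : ∀ x ∈ K, ⟪x, v⟫ ≤ 0) (y : EuclideanSpace ℝ (Fin n)) :
    sSup ((fun x => ⟪x, y + v⟫) '' K) ≤ sSup ((fun x => ⟪x, y⟫) '' K) := by
  refine csSup_le (hne.image _) ?_
  rintro _ ⟨x, hx, rfl⟩
  have h1 : ⟪x, y⟫ ≤ sSup ((fun x => ⟪x, y⟫) '' K) :=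
    le_csSup (hc.image (by fun_prop)).bddAbove ⟨x, hx, rfl⟩
  have h2 := hv x hx
  show ⟪x, y + v⟫ ≤ _
  rw [inner_add_right]
  linarith

/-- outside of the interior position the integral diverges -/
lemma inf_top (hc : IsCompact K) (hv : Convex ℝ K) (hi : (interior K).Nonempty)
    (h0 : (0 : EuclideanSpace ℝ (Fin n)) ∉ interior K) :
    ∫⁻ y : EuclideanSpace ℝ (Fin n), ENNReal.ofReal (Real.exp (-sSup ((fun x => ⟪x, y⟫) '' K))) =
      ⊤ := by
  obtain ⟨v, hv0, hvK⟩ := exists_dir hv hi h0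
  have hne : K.Nonempty := hi.mono interior_subset
  have hcont : Continuous fun y : EuclideanSpace ℝ (Fin n) => sSup ((fun x => ⟪x, y⟫) '' K) :=
    hc.continuous_sSup (f := fun (y : EuclideanSpace ℝ (Fin n)) (x : EuclideanSpace ℝ (Fin n)) =>
      ⟪x, y⟫) (by fun_prop)
  refine lint_eq_top (f := fun y => ENNReal.ofReal
    (Real.exp (-sSup ((fun x => ⟪x, y⟫) '' K)))) ?_ (fun y => by positivity) hv0 fun y => ?_
  · exact (Real.continuous_exp.comp hcont.neg).measurable.ennreal_ofReal
  · refine ENNReal.ofReal_le_ofReal (Real.exp_le_exp.2 (neg_le_neg ?_))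
    exact supp_shift hc hne hvK y

/-- `p = ∞`, all positions -/
theorem inf_all (hn : 1 ≤ n) (hc : IsCompact K) (hv : Convex ℝ K) (hi : (interior K).Nonempty) :
    ENNReal.ofReal (cst n ^ n) ≤ volume K * ∫⁻ y : EuclideanSpace ℝ (Fin n),
      ENNReal.ofReal (Real.exp (-sSup ((fun x => ⟪x, y⟫) '' K))) := by
  by_cases h0 : (0 : EuclideanSpace ℝ (Fin n)) ∈ interior K
  · exact inf_ge hn hc hv h0
  · rw [inf_top hc hv hi h0, ENNReal.mul_top]
    · exact le_top
    · exact (lt_of_lt_of_le (isOpen_interior.measure_pos volume hi)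
        (measure_mono interior_subset)).ne'

/-- `h_p ≤ h` -/
lemma supp_Lp_le (hc : IsCompact K) (hi : (interior K).Nonempty) {p : ℝ} (hp : 0 < p)
    (y : EuclideanSpace ℝ (Fin n)) :
    (1 / p) * Real.log ((∫ x in K, Real.exp (p * ⟪x, y⟫)) / volume.real K) ≤
      sSup ((fun x => ⟪x, y⟫) '' K) := by
  have hV : 0 < volume.real K := ENNReal.toReal_pos
    (lt_of_lt_of_le (isOpen_interior.measure_pos volume hi) (measure_mono interior_subset)).ne'
    hc.measure_lt_top.ne
  set s := sSup ((fun x => ⟪x, y⟫) '' K) with hs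
  have hcont : Continuous fun x : EuclideanSpace ℝ (Fin n) => Real.exp (p * ⟪x, y⟫) := by
    fun_prop
  have h1 : ∫ x in K, Real.exp (p * ⟪x, y⟫) ≤ ∫ x in K, Real.exp (p * s) := by
    refine setIntegral_mono_on (hcont.continuousOn.integrableOn_compact hc)
      (integrableOn_const hc.measure_lt_top.ne) hc.measurableSet fun x hx => ?_
    refine Real.exp_le_exp.2 (mul_le_mul_of_nonneg_left ?_ hp.le)
    exact le_csSup (hc.image (by fun_prop)).bddAbove ⟨x, hx, rfl⟩
  rw [setIntegral_const, smul_eq_mul] at h1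
  have h0 : 0 < ∫ x in K, Real.exp (p * ⟪x, y⟫) := by
    have h3 : volume.real K * Real.exp (p * (-(sSup ((fun x => -⟪x, y⟫) '' K)))) ≤
        ∫ x in K, Real.exp (p * ⟪x, y⟫) := by
      rw [← smul_eq_mul, ← setIntegral_const]
      refine setIntegral_mono_on (integrableOn_const hc.measure_lt_top.ne)
        (hcont.continuousOn.integrableOn_compact hc) hc.measurableSet fun x hx => ?_
      refine Real.exp_le_exp.2 (mul_le_mul_of_nonneg_left ?_ hp.le)
      have : -⟪x, y⟫ ≤ sSup ((fun x => -⟪x, y⟫) '' K) :=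
        le_csSup (hc.image (by fun_prop)).bddAbove ⟨x, hx, rfl⟩
      linarith
    exact lt_of_lt_of_le (by positivity) h3
  have h2 : Real.log ((∫ x in K, Real.exp (p * ⟪x, y⟫)) / volume.real K) ≤ p * s := by
    rw [Real.log_le_iff_le_exp (by positivity), div_le_iff₀ hV]
    linarith
  rw [one_div, inv_mul_le_iff₀ hp]
  exact h2

/-- all `p`, all positions, from `p = ∞` -/
theorem lp_all (hn : 1 ≤ n) (hc : IsCompact K) (hv : Convex ℝ K) (hi : (interior K).Nonempty)
    {p : ℝ} (hp : 0 < p) :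
    ENNReal.ofReal (cst n ^ n) ≤ volume K * ∫⁻ y : EuclideanSpace ℝ (Fin n),
      ENNReal.ofReal (Real.exp (-((1 / p) * Real.log
        ((∫ x in K, Real.exp (p * ⟪x, y⟫)) / volume.real K)))) := by
  refine (inf_all hn hc hv hi).trans ?_
  gcongr with y
  exact supp_Lp_le hc hi hp y

/-- the gain for finite `p`, with the comparison theorem of helper771 -/
theorem lp_gain (hn : 1 ≤ n) (hc : IsCompact K) (hv : Convex ℝ K) (hi : (interior K).Nonempty)
    {p : ℝ} (hp : 0 < p) :
    ENNReal.ofReal (((1 + 1 / (2 * p)) ^ (1 + 1 / (2 * p)) *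
      (p / (2 * Real.pi)) ^ (1 / (2 * p)) * cst n ^ (1 + 1 / (2 * p))) ^ n) ≤
      volume K * ∫⁻ y : EuclideanSpace ℝ (Fin n),
      ENNReal.ofReal (Real.exp (-((1 / p) * Real.log
        ((∫ x in K, Real.exp (p * ⟪x, y⟫)) / volume.real K)))) := by
  by_cases h0 : (0 : EuclideanSpace ℝ (Fin n)) ∈ interior K
  · have hs0 : 0 < 1 / p := by positivity
    have es : 1 / (2 * p) = 1 / p / 2 := by field_simp
    have hpi := Real.pi_pos
    have eq1 : p / (2 * Real.pi) = 1 / (2 * Real.pi * (1 / p)) := by field_simp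
    have hb : W679AM.OBody (co K) := cor_zero K ▸ W679AM.cor_body hc hv h0
    have h : Bdy (co K) := bdy hb
    rw [Pool.Agent.H771.LT.mahlerLp_eq h hb.zero hp]
    refine ENNReal.ofReal_le_ofReal ?_
    have h1 := Pool.Agent.H771.LT.comparison h hb.conv hb.zero hs0
    rw [← es, ← eq1] at h1
    refine le_trans ?_ h1
    -- the Mahler volume
    have h2 := inf_ge hn hc hv h0
    have hint := Pool.Agent.H771.LT.int_exp_hs h hb.zero one_pos
    simp only [neg_mul, one_mul] at hint
    have h3 : ∫⁻ y : EuclideanSpace ℝ (Fin n),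
        ENNReal.ofReal (Real.exp (-sSup ((fun x => ⟪x, y⟫) '' K))) =
        ENNReal.ofReal (J (co K)) := by
      unfold J
      rw [ofReal_integral_eq_lintegral_ofReal hint (Eventually.of_forall fun y =>
        (Real.exp_pos _).le), ← Pool.Agent.H771.LT.lint_co]
      refine lintegral_congr fun y => ?_
      rw [supp_co]
      rfl
    have hV : volume K = ENNReal.ofReal (volume.real (co K)) := by
      rw [← Pool.Agent.H771.LT.vol_co, Measure.real,
        ENNReal.ofReal_toReal h.comp.measure_lt_top.ne]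
    rw [h3, hV, ← ENNReal.ofReal_mul measureReal_nonneg] at h2
    have hJ := Pool.Agent.H771.LT.J_pos h hb.zero
    have h4 := (ENNReal.ofReal_le_ofReal_iff (by positivity)).1 h2
    have hc0 := cst_nonneg n
    have h5 : (cst n ^ (1 + 1 / (2 * p))) ^ n ≤
        (volume.real (co K) * J (co K)) ^ (1 + 1 / (2 * p)) := by
      rw [← Real.rpow_natCast, ← Real.rpow_mul hc0, mul_comm, Real.rpow_mul hc0,
        Real.rpow_natCast]
      exact Real.rpow_le_rpow (by positivity) h4 (by positivity)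
    rw [mul_pow]
    exact mul_le_mul_of_nonneg_left h5 (by positivity)
  · have h1 : ∫⁻ y : EuclideanSpace ℝ (Fin n), ENNReal.ofReal (Real.exp (-((1 / p) * Real.log
        ((∫ x in K, Real.exp (p * ⟪x, y⟫)) / volume.real K)))) = ⊤ := by
      refine top_le_iff.1 ?_
      rw [← inf_top hc hv hi h0]
      gcongr with y
      exact supp_Lp_le hc hi hp y
    rw [h1, ENNReal.mul_top]
    · exact le_top
    · exact (lt_of_lt_of_le (isOpen_interior.measure_pos volume hi)
        (measure_mono interior_subset)).ne'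

end Pool.Agent.H798.NM
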