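import Pool.Agent.H798.NM.Vol
import Pool.Graph.R_seed8.W679.AM.Cor

/-!
The lower bound of the volume product for bodies of asymmetry `β`, in coordinates.
-/

set_option autoImplicit false

open MeasureTheory Set Filter Topology
open scoped Matrix BigOperators Pointwise

namespace Pool.Agent.H798.NM

open Pool.Agent.H771.LT (Bdy S1 S1_nonneg)

variable {n : ℕ} {K : Set (Fin n → ℝ)}

lemma bdy (h : W679AM.OBody K) : Bdy K := ⟨h.comp, ⟨0, h.zero⟩⟩

/-- separation in coordinates -/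
lemma mem_of_le_hs (h : W679AM.OBody K) {x : Fin n → ℝ} (hx : ∀ u, x ⬝ᵥ u ≤ W679AM.hs K u) :
    x ∈ K := by
  by_contra hnot
  obtain ⟨f, t, hf1, hf2⟩ := geometric_hahn_banach_closed_point h.conv h.comp.isClosed hnot
  have e : ∀ x : Fin n → ℝ, f x = x ⬝ᵥ (fun i => f (Pi.single i 1)) := by
    intro x
    conv_lhs => rw [← LinearMap.sum_single_apply (fun _ : Fin n => ℝ) x]
    rw [map_sum]
    refine Finset.sum_congr rfl fun i _ => ?_
    have : (Pi.single i (x i) : Fin n → ℝ) = x i • Pi.single i (1 : ℝ) := by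
      rw [← Pi.single_smul, smul_eq_mul, mul_one]
    rw [this, map_smul, smul_eq_mul]
  have h1 := hx (fun i => f (Pi.single i 1))
  have h2 : W679AM.hs K (fun i => f (Pi.single i 1)) ≤ t :=
    W679AM.GAaux.hs_le h _ _ fun y hy => by rw [← e]; exact (hf1 y hy).le
  rw [← e] at h1
  linarith

lemma prm_closed (K : Set (Fin n → ℝ)) : IsClosed (W679AM.prm K) := by
  have : W679AM.prm K = ⋂ u, {x | |x ⬝ᵥ u| * (W679AM.hs K u + W679AM.hs K (-u)) ≤
      W679AM.hs K u * W679AM.hs K (-u)} := by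
    ext x; simp [W679AM.prm]
  rw [this]
  refine isClosed_iInter fun u => isClosed_le ?_ continuous_const
  unfold dotProduct
  fun_prop

lemma prm_neg {x : Fin n → ℝ} (hx : x ∈ W679AM.prm K) : -x ∈ W679AM.prm K := by
  intro u
  have := hx u
  rwa [neg_dotProduct, abs_neg]

lemma sum_hs_pos (h : W679AM.OBody K) {u : Fin n → ℝ} (hu : u ≠ 0) :
    0 < W679AM.hs K u + W679AM.hs K (-u) :=
  add_pos_of_pos_of_nonneg (W679AM.GAaux.hs_pos h hu) (W679AM.GAaux.hs_nonneg h _)

lemma four_abs_le (h : W679AM.OBody K) {x : Fin n → ℝ} (hx : x ∈ W679AM.prm K) (u : Fin n → ℝ) :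
    4 * |x ⬝ᵥ u| ≤ W679AM.hs K u + W679AM.hs K (-u) := by
  rcases eq_or_ne u 0 with rfl | hu
  · rw [dotProduct_zero, abs_zero, mul_zero]
    exact add_nonneg (W679AM.GAaux.hs_nonneg h _) (W679AM.GAaux.hs_nonneg h _)
  · have h1 := hx u
    have h2 := sum_hs_pos h hu
    by_contra hcon
    push Not at hcon
    nlinarith [sq_nonneg (W679AM.hs K u - W679AM.hs K (-u)), mul_lt_mul_of_pos_right hcon h2]

/-- the harmonic body of a body of asymmetry `β` is in a translate of `(β / (1 + β)) K` -/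
lemma prm_sub (h : W679AM.OBody K) {β : ℝ} (hβ : 0 < β) {c : Fin n → ℝ}
    (hsym : ∀ x ∈ K, c - β⁻¹ • (x - c) ∈ K) {y : Fin n → ℝ} (hy : y ∈ W679AM.prm K) :
    ∃ x ∈ K, y = (β / (1 + β)) • x + (-(1 / (1 + β))) • c := by
  have h1β : 0 < 1 + β := by linarith
  refine ⟨((1 + β) / β) • y + (1 / β) • c, ?_, ?_⟩
  · refine mem_of_le_hs h fun u => ?_
    rw [add_dotProduct, smul_dotProduct, smul_dotProduct, smul_eq_mul, smul_eq_mul]
    set H1 := W679AM.hs K u with hH1
    set H2 := W679AM.hs K (-u) with hH2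
    set w := c ⬝ᵥ u with hw
    have p1 : 0 ≤ H1 := W679AM.GAaux.hs_nonneg h _
    have p2 : 0 ≤ H2 := W679AM.GAaux.hs_nonneg h _
    have hasym : H2 ≤ β * H1 - (1 + β) * w := by
      refine W679AM.GAaux.hs_le h _ _ fun x hx => ?_
      have h3 := W679AM.GAaux.le_hs h (hsym x hx) u
      rw [sub_dotProduct, smul_dotProduct, sub_dotProduct, smul_eq_mul] at h3
      rw [dotProduct_neg]
      have h4 := mul_le_mul_of_nonneg_left h3 hβ.le
      have h5 : β * (c ⬝ᵥ u - β⁻¹ * (x ⬝ᵥ u - c ⬝ᵥ u)) = β * w - (x ⬝ᵥ u - w) := by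
        rw [hw]; field_simp
      rw [h5] at h4
      linarith
    have hyu : y ⬝ᵥ u * (H1 + H2) ≤ H1 * H2 :=
      (mul_le_mul_of_nonneg_right (le_abs_self _) (by positivity)).trans (hy u)
    have key : (1 + β) * (y ⬝ᵥ u) + w ≤ β * H1 := by
      rcases eq_or_lt_of_le (by positivity : 0 ≤ H1 + H2) with h00 | h00
      · have hu0 : u = 0 := by
          by_contra hu
          have := sum_hs_pos h hu
          rw [← hH1, ← hH2] at this
          linarith
        rw [hw, hu0, dotProduct_zero, dotProduct_zero]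
        simp only [mul_zero, add_zero]
        positivity
      · by_contra hcon
        push Not at hcon
        have h7 := mul_lt_mul_of_pos_right hcon (mul_pos h1β h00)
        have h8 : (1 + β) * w * (H1 + H2) ≤ (β * H1 - H2) * (H1 + H2) :=
          mul_le_mul_of_nonneg_right (by linarith) h00.le
        have h9 : (1 + β) ^ 2 * (y ⬝ᵥ u * (H1 + H2)) ≤ (1 + β) ^ 2 * (H1 * H2) :=
          mul_le_mul_of_nonneg_left hyu (by positivity)
        nlinarith [sq_nonneg (β * H1 - H2)]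
    have h10 : (1 + β) / β * (y ⬝ᵥ u) + 1 / β * w = ((1 + β) * (y ⬝ᵥ u) + w) / β := by
      ring
    rw [h10, div_le_iff₀ hβ]
    linarith
  · rw [smul_add, smul_smul, smul_smul]
    have e1 : β / (1 + β) * ((1 + β) / β) = 1 := by field_simp
    have e2 : β / (1 + β) * (1 / β) = 1 / (1 + β) := by field_simp
    rw [e1, e2, one_smul, neg_smul]
    abel

lemma hs_ge (h : W679AM.OBody K) : ∃ ε : ℝ, 0 < ε ∧ ∀ u, ε * S1 u ≤ W679AM.hs K u := by
  obtain ⟨ε, hε, hball⟩ :=
    Metric.nhds_basis_closedBall.mem_iff.1 (mem_interior_iff_mem_nhds.1 h.zero)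
  refine ⟨ε, hε, fun u => ?_⟩
  let x : Fin n → ℝ := fun i => if 0 ≤ u i then ε else -ε
  have hx : x ∈ K := by
    refine hball ?_
    rw [mem_closedBall_zero_iff, pi_norm_le_iff_of_nonneg hε.le]
    intro i
    simp only [x]
    split_ifs <;> simp [abs_of_pos hε]
  refine le_trans (le_of_eq ?_) (W679AM.GAaux.le_hs h hx u)
  unfold S1 dotProduct
  rw [Finset.mul_sum]
  refine Finset.sum_congr rfl fun i _ => ?_
  simp only [x]
  split_ifs with hi
  · rw [abs_of_nonneg hi]
  · rw [abs_of_neg (not_le.1 hi)]; ring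

/-- the volume of the harmonic body -/
theorem prm_volume (h : W679AM.OBody K) {β : ℝ} (hβ : 1 ≤ β) {c : Fin n → ℝ}
    (hsym : ∀ x ∈ K, c - β⁻¹ • (x - c) ∈ K) :
    ENNReal.ofReal (√(4 * (1 + β) / (3 * β - 1)) ^ n) * volume (W679AM.prm K) ≤ volume K := by
  obtain ⟨ε, hε, hεK⟩ := hs_ge h
  have hβ0 : 0 < β := by linarith
  set q : ℝ := √(4 * (1 + β) / (3 * β - 1)) ^ n with hq
  have hstep : ∀ r : ℝ, 0 < r → r < 1 →
      ENNReal.ofReal q * (ENNReal.ofReal (r ^ n) * volume (W679AM.prm K)) ≤ volume K := by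
    intro r hr0 hr1
    have hvr : volume (r • W679AM.prm K) = ENNReal.ofReal (r ^ n) * volume (W679AM.prm K) := by
      rw [Measure.addHaar_smul, Module.finrank_fintype_fun_eq_card, Fintype.card_fin,
        abs_of_pos (by positivity)]
    rw [← hvr]
    refine vol_ineq (bdy h) h.conv hβ (δ := (1 - r) * ε)
      ((prm_closed K).measurableSet.const_smul₀ r)
      (s := r • ((-(1 / (1 + β))) • c)) ?_ ?_ (mul_pos (by linarith) hε) ?_
    · rintro _ ⟨y, hy, rfl⟩
      obtain ⟨x, hx, hxy⟩ := prm_sub h hβ0 hsym hy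
      refine ⟨r • x, ?_, ?_⟩
      · have := h.conv (interior_subset h.zero) hx (by linarith : 0 ≤ 1 - r) hr0.le (by ring)
        rwa [smul_zero, zero_add] at this
      · show r • y = _
        rw [hxy, smul_add, smul_comm r (β / (1 + β)) x]
    · rintro _ ⟨y, hy, rfl⟩
      exact ⟨-y, prm_neg hy, by simp⟩
    · rintro _ ⟨y, hy, rfl⟩ u
      have h1 := four_abs_le h hy u
      have h2 := le_abs_self (y ⬝ᵥ u)
      have h3 := hεK u
      have h4 := W679AM.GAaux.hs_nonneg h (-u)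
      show 4 * ((r • y) ⬝ᵥ u) + (1 - r) * ε * S1 u ≤ W679AM.hs K u + W679AM.hs K (-u)
      rw [smul_dotProduct, smul_eq_mul]
      nlinarith [mul_le_mul_of_nonneg_left h1 hr0.le, mul_le_mul_of_nonneg_left h2 hr0.le,
        mul_le_mul_of_nonneg_left h3 (by linarith : 0 ≤ 1 - r),
        mul_nonneg (by linarith : 0 ≤ 1 - r) h4]
  have hfK : volume K ≠ ⊤ := h.comp.measure_lt_top.ne
  have hprmK : W679AM.prm K ⊆ K := by
    intro x hx
    refine mem_of_le_hs h fun u => ?_
    have h1 := hx u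
    have p1 : 0 ≤ W679AM.hs K u := W679AM.GAaux.hs_nonneg h _
    have p2 : 0 ≤ W679AM.hs K (-u) := W679AM.GAaux.hs_nonneg h _
    rcases eq_or_ne u 0 with rfl | hu
    · rw [dotProduct_zero]; exact p1
    · have h2 := sum_hs_pos h hu
      by_contra hcon
      push Not at hcon
      have h3 := le_abs_self (x ⬝ᵥ u)
      nlinarith
  have hfP : volume (W679AM.prm K) ≠ ⊤ := ne_top_of_le_ne_top hfK (measure_mono hprmK)
  -- real form
  have hreal : ∀ r : ℝ, 0 < r → r < 1 →
      q * (r ^ n * volume.real (W679AM.prm K)) ≤ volume.real K := by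
    intro r hr0 hr1
    have := hstep r hr0 hr1
    rw [← ofReal_measureReal hfP, ← ofReal_measureReal hfK,
      ← ENNReal.ofReal_mul (by positivity), ← ENNReal.ofReal_mul (by positivity)] at this
    exact (ENNReal.ofReal_le_ofReal_iff measureReal_nonneg).1 this
  have hlim : q * (1 ^ n * volume.real (W679AM.prm K)) ≤ volume.real K := by
    have hcont : Continuous fun r : ℝ => q * (r ^ n * volume.real (W679AM.prm K)) := by fun_prop
    have ht : Tendsto (fun r : ℝ => q * (r ^ n * volume.real (W679AM.prm K))) (𝓝[<] 1)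
        (𝓝 (q * (1 ^ n * volume.real (W679AM.prm K)))) :=
      (hcont.tendsto 1).mono_left nhdsWithin_le_nhds
    refine le_of_tendsto ht ?_
    have h0 : ∀ᶠ r : ℝ in 𝓝[<] 1, 0 < r :=
      (eventually_gt_nhds (by norm_num)).filter_mono nhdsWithin_le_nhds
    filter_upwards [h0, self_mem_nhdsWithin] with r hr0 hr1
    exact hreal r hr0 hr1
  rw [one_pow, one_mul] at hlim
  rw [← ofReal_measureReal hfP, ← ofReal_measureReal hfK, ← ENNReal.ofReal_mul (by positivity)]
  exact ENNReal.ofReal_le_ofReal hlim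

/-- the volume product in coordinates -/
theorem product (h : W679AM.OBody K) {β : ℝ} (hβ : 1 ≤ β) {c : Fin n → ℝ}
    (hsym : ∀ x ∈ K, c - β⁻¹ • (x - c) ∈ K) :
    ENNReal.ofReal ((4 * √((1 + β) / (3 * β - 1))) ^ n / n.factorial) ≤
      volume K * volume (H712MA.GB.plr K) := by
  have h1 := W679AM.GAaux.coord W679AM.za h
  have h2 := prm_volume h hβ hsym
  have h3 : (4 * √((1 + β) / (3 * β - 1))) ^ n / n.factorial =
      √(4 * (1 + β) / (3 * β - 1)) ^ n * ((2 : ℝ) ^ n / n.factorial) := by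
    have e : √(4 * (1 + β) / (3 * β - 1)) = 2 * √((1 + β) / (3 * β - 1)) := by
      rw [mul_div_assoc, Real.sqrt_mul (by norm_num), show (4 : ℝ) = 2 ^ 2 by norm_num,
        Real.sqrt_sq (by norm_num)]
    rw [e, ← mul_div_assoc, ← mul_pow]
    congr 2
    ring
  rw [h3, ENNReal.ofReal_mul (by positivity)]
  calc ENNReal.ofReal (√(4 * (1 + β) / (3 * β - 1)) ^ n) *
        ENNReal.ofReal ((2 : ℝ) ^ n / n.factorial)
      ≤ ENNReal.ofReal (√(4 * (1 + β) / (3 * β - 1)) ^ n) *
        (volume (W679AM.prm K) * volume (H712MA.GB.plr K)) := by gcongr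
    _ = (ENNReal.ofReal (√(4 * (1 + β) / (3 * β - 1)) ^ n) * volume (W679AM.prm K)) *
        volume (H712MA.GB.plr K) := by rw [mul_assoc]
    _ ≤ volume K * volume (H712MA.GB.plr K) := by gcongr

end Pool.Agent.H798.NM
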