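import Pool.Agent.H798.NM.Det
import Pool.Agent.H771.LT.G

/-!
Let `K` be a convex body, `Λ` the logarithm of the Laplace transform of its indicator function and
`G = ∇Λ`.  The map `X(u) = (G(u) - G(-u))/4` takes every value `y` with
`4 ⟨y, u⟩ + δ |u|₁ ≤ h_K(u) + h_K(-u)`.
-/

set_option autoImplicit false

open MeasureTheory Set Filter Topology
open scoped Matrix BigOperators

namespace Pool.Agent.H798.NM

open Pool.Agent.H771.LT

variable {n : ℕ} {K : Set (Fin n → ℝ)}

lemma exists_hs (hK : IsCompact K) (hne : K.Nonempty) (u : Fin n → ℝ) :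
    ∃ x ∈ K, x ⬝ᵥ u = hs K u := by
  have hcont : Continuous fun x : Fin n → ℝ => x ⬝ᵥ u := by unfold dotProduct; fun_prop
  have := (hK.image hcont).sSup_mem (hne.image _)
  obtain ⟨x, hx, hxu⟩ := this
  exact ⟨x, hx, hxu⟩

/-- a lower bound of the Laplace transform by the support function -/
lemma N_lower_hs (h : Bdy K) (hc : Convex ℝ K) {R : ℝ} (hRK : ∀ x ∈ K, ∀ i, |x i| ≤ R)
    {τ : ℝ} (h0 : 0 < τ) (h1 : τ ≤ 1) (u : Fin n → ℝ) :
    τ ^ n * volume.real K * Real.exp (hs K u - 2 * τ * R * S1 u) ≤ N K u := by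
  have hne : K.Nonempty := h.int.mono interior_subset
  obtain ⟨x0, hx0, hx0u⟩ := exists_hs h.comp hne u
  set A : Set (Fin n → ℝ) := AffineMap.homothety x0 τ '' K with hA
  have hAK : A ⊆ K := by
    rintro _ ⟨x, hx, rfl⟩
    rw [AffineMap.homothety_apply, vsub_eq_sub, vadd_eq_add]
    have : τ • (x - x0) + x0 = (1 - τ) • x0 + τ • x := by
      rw [smul_sub, sub_smul, one_smul]; abel
    rw [this]
    exact hc hx0 hx (by linarith) h0.le (by ring)
  have hAc : IsCompact A := h.comp.image (AffineMap.homothety_continuous x0 τ)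
  have hvol : volume.real A = τ ^ n * volume.real K := by
    rw [Measure.real, hA, Measure.addHaar_image_homothety, ENNReal.toReal_mul]
    rw [Module.finrank_fintype_fun_eq_card, Fintype.card_fin, abs_of_pos (by positivity),
      ENNReal.toReal_ofReal (by positivity)]
    rfl
  have hi := integrable_W h.comp (w := fun _ => (1 : ℝ)) continuous_const u
  have hhs : hs K u ≤ R * S1 u := by
    rw [← hx0u]
    exact (le_abs_self _).trans (dot_le_S1 (hRK x0 hx0))
  calc τ ^ n * volume.real K * Real.exp (hs K u - 2 * τ * R * S1 u)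
      = ∫ x in A, Real.exp (hs K u - 2 * τ * R * S1 u) := by
        rw [setIntegral_const, smul_eq_mul, hvol]
    _ ≤ ∫ x in A, (1 : ℝ) * Real.exp (x ⬝ᵥ u) := by
        refine setIntegral_mono_on (integrableOn_const hAc.measure_lt_top.ne)
          (hi.mono_measure (Measure.restrict_mono hAK le_rfl)) hAc.measurableSet ?_
        rintro _ ⟨x, hx, rfl⟩
        rw [one_mul]
        refine Real.exp_le_exp.2 ?_
        rw [AffineMap.homothety_apply, vsub_eq_sub, vadd_eq_add, add_dotProduct, smul_dotProduct,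
          sub_dotProduct, hx0u, smul_eq_mul]
        have h2 := abs_le.1 (dot_le_S1 (y := u) (hRK x hx))
        nlinarith [h2.1]
    _ ≤ ∫ x in K, (1 : ℝ) * Real.exp (x ⬝ᵥ u) := by
        refine setIntegral_mono_set hi (Eventually.of_forall fun x => ?_) hAK.eventuallyLE
        simp only [Pi.zero_apply, one_mul]
        exact (Real.exp_pos _).le
    _ = N K u := rfl

lemma S1_neg (u : Fin n → ℝ) : S1 (-u) = S1 u := by simp [S1]

lemma norm_le_S1 (u : Fin n → ℝ) : ‖u‖ ≤ S1 u := by
  rw [pi_norm_le_iff_of_nonneg (S1_nonneg u)]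
  intro i
  exact Finset.single_le_sum (f := fun i => |u i|) (fun i _ => abs_nonneg _) (Finset.mem_univ i)

/-- `X` takes the value `y` -/
lemma surj (h : Bdy K) (hc : Convex ℝ K) (y : Fin n → ℝ) {δ : ℝ} (hδ : 0 < δ)
    (hy : ∀ u, 4 * (y ⬝ᵥ u) + δ * S1 u ≤ hs K u + hs K (-u)) :
    ∃ u, (1 / 4 : ℝ) • (G K u - G K (-u)) = y := by
  obtain ⟨R, hR, hRK⟩ := exists_R h.comp
  have hV := vol_real_pos h
  -- the potential
  let F : (Fin n → ℝ) → ℝ := fun u => Real.log (N K u) + Real.log (N K (-u)) - 4 * (y ⬝ᵥ u)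
  have hlog : ∀ u, HasFDerivAt (fun u => Real.log (N K u)) (lf (G K u)) u := by
    intro u
    have h1 := (hasFDerivAt_N h u).log (N_pos h u).ne'
    refine h1.congr_fderiv ?_
    rw [smul_smul, inv_mul_cancel₀ (N_pos h u).ne', one_smul]
  have hneg : ∀ u, HasFDerivAt (fun u => Real.log (N K (-u))) (-lf (G K (-u))) u := by
    intro u
    have h1 : HasFDerivAt (fun u : Fin n → ℝ => -u)
        (-ContinuousLinearMap.id ℝ (Fin n → ℝ)) u := (hasFDerivAt_id u).neg
    have h2 := (hlog (-u)).comp u h1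
    refine h2.congr_fderiv ?_
    ext v
    simp
  have hlin : ∀ u, HasFDerivAt (fun u => 4 * (y ⬝ᵥ u)) ((4 : ℝ) • lf y) u := by
    intro u
    have h1 : HasFDerivAt (fun z : Fin n → ℝ => y ⬝ᵥ z) (lf y) u := by
      have : (fun z : Fin n → ℝ => y ⬝ᵥ z) = fun z => lf y z := by
        funext z; rw [lf_apply]
      rw [this]
      exact (lf y).hasFDerivAt
    exact h1.const_mul 4
  have hF : ∀ u, HasFDerivAt F (lf (G K u) + -lf (G K (-u)) - (4 : ℝ) • lf y) u :=
    fun u => ((hlog u).add (hneg u)).sub (hlin u)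
  have hFc : Continuous F := continuous_iff_continuousAt.2 fun u => (hF u).continuousAt
  -- coercivity
  set τ : ℝ := min 1 (δ / (8 * R)) with hτ
  have hτ0 : 0 < τ := lt_min one_pos (by positivity)
  have hτ1 : τ ≤ 1 := min_le_left _ _
  have hτ2 : 4 * τ * R ≤ δ / 2 := by
    have : τ ≤ δ / (8 * R) := min_le_right _ _
    rw [le_div_iff₀ (by positivity)] at this
    linarith
  set c : ℝ := Real.log (τ ^ n * volume.real K) with hcdef
  have hlow : ∀ u, c + (hs K u - 2 * τ * R * S1 u) ≤ Real.log (N K u) := by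
    intro u
    have h1 := N_lower_hs h hc hRK hτ0 hτ1 u
    have h2 := Real.log_le_log (by positivity) h1
    rwa [Real.log_mul (by positivity) (Real.exp_ne_zero _), Real.log_exp] at h2
  have hcoer : ∀ u, 2 * c + δ / 2 * ‖u‖ ≤ F u := by
    intro u
    have h1 := hlow u
    have h2 := hlow (-u)
    rw [S1_neg] at h2
    have h3 := hy u
    have h4 := norm_le_S1 u
    have h5 := S1_nonneg u
    show _ ≤ Real.log (N K u) + Real.log (N K (-u)) - 4 * (y ⬝ᵥ u)
    nlinarith
  have htend : Tendsto F (cocompact (Fin n → ℝ)) atTop := by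
    have h1 : Tendsto (fun u : Fin n → ℝ => 2 * c + δ / 2 * ‖u‖) (cocompact (Fin n → ℝ)) atTop :=
      tendsto_atTop_add_const_left _ _
        ((tendsto_norm_cocompact_atTop).const_mul_atTop (by positivity))
    exact tendsto_atTop_mono hcoer h1
  obtain ⟨u, hu⟩ := hFc.exists_forall_le htend
  refine ⟨u, ?_⟩
  have hmin : IsLocalMin F u := Eventually.of_forall hu
  have h0 := hmin.hasFDerivAt_eq_zero (hF u)
  have h1 : ∀ v : Fin n → ℝ, (G K u - G K (-u) - (4 : ℝ) • y) ⬝ᵥ v = 0 := by
    intro v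
    have := DFunLike.congr_fun h0 v
    simp only [sub_apply, add_apply, neg_apply, smul_apply, lf_apply, zero_apply,
      smul_eq_mul] at this
    rw [sub_dotProduct, sub_dotProduct, smul_dotProduct, smul_eq_mul]
    linarith
  have h2 := dotProduct_self_eq_zero.1 (h1 _)
  have h3 : G K u - G K (-u) = (4 : ℝ) • y := sub_eq_zero.1 h2
  rw [h3, smul_smul]
  norm_num

end Pool.Agent.H798.NM
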