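import Mathlib

/-!
Simultaneous diagonalisation of two quadratic forms and a determinant inequality.
-/

set_option autoImplicit false

open scoped Matrix BigOperators

namespace Pool.Agent.H798.NM

variable {n : ℕ}

/-- the spectral theorem for real symmetric matrices -/
lemma spec {T : Matrix (Fin n) (Fin n) ℝ} (hTh : T.IsHermitian) :
    ∃ (U : Matrix (Fin n) (Fin n) ℝ) (e : Fin n → ℝ), e = hTh.eigenvalues ∧
      T = U * Matrix.diagonal e * Uᵀ ∧ U * Uᵀ = 1 := by
  have hsp := hTh.spectral_theorem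
  refine ⟨(hTh.eigenvectorUnitary : Matrix (Fin n) (Fin n) ℝ), hTh.eigenvalues, rfl, ?_, ?_⟩
  · have h2 := hsp
    rw [Unitary.conjStarAlgAut_apply] at h2
    simpa [Matrix.star_eq_conjTranspose, Matrix.mul_assoc] using h2
  · have := Unitary.mul_star_self_of_mem hTh.eigenvectorUnitary.2
    simpa [Matrix.star_eq_conjTranspose] using this

lemma sqrt_exists {C : Matrix (Fin n) (Fin n) ℝ} (hC : C.PosDef) :
    ∃ B : Matrix (Fin n) (Fin n) ℝ, C = Bᵀ * B := by
  obtain ⟨U, e, he, h1, -⟩ := spec hC.1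
  have hpos : ∀ i, 0 < e i := by rw [he]; exact hC.eigenvalues_pos
  refine ⟨Matrix.diagonal (fun i => √(e i)) * Uᵀ, ?_⟩
  rw [Matrix.transpose_mul, Matrix.transpose_transpose, Matrix.diagonal_transpose, h1]
  have h2 : Matrix.diagonal (fun i => √(e i)) *
      Matrix.diagonal (fun i => √(e i)) = Matrix.diagonal e := by
    rw [Matrix.diagonal_mul_diagonal]
    congr 1
    funext i
    exact Real.mul_self_sqrt (hpos i).le
  rw [← h2]
  simp only [Matrix.mul_assoc]

/-- simultaneous diagonalisation by a congruence -/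
lemma simdiag {C A : Matrix (Fin n) (Fin n) ℝ} (hC : C.PosDef) (hA : A.IsHermitian) :
    ∃ (P : Matrix (Fin n) (Fin n) ℝ) (t : Fin n → ℝ), P.det ≠ 0 ∧ C = Pᵀ * P ∧
      A = Pᵀ * Matrix.diagonal t * P := by
  obtain ⟨B, hB'⟩ := sqrt_exists hC
  have hdet : B.det ≠ 0 := by
    intro h
    have := hC.det_pos
    rw [hB', Matrix.det_mul, h, mul_zero] at this
    exact lt_irrefl _ this
  have hBu : IsUnit B.det := isUnit_iff_ne_zero.2 hdet
  set T : Matrix (Fin n) (Fin n) ℝ := B⁻¹ᵀ * A * B⁻¹ with hT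
  have hAt : Aᵀ = A := by
    have := hA.eq
    simpa using this
  have hTh : T.IsHermitian := by
    show Tᴴ = T
    rw [Matrix.conjTranspose_eq_transpose_of_trivial, hT]
    simp only [Matrix.transpose_mul, Matrix.transpose_transpose, hAt, Matrix.mul_assoc]
  obtain ⟨U, e, -, hTU, hUU⟩ := spec hTh
  refine ⟨Uᵀ * B, e, ?_, ?_, ?_⟩
  · rw [Matrix.det_mul, Matrix.det_transpose]
    refine mul_ne_zero ?_ hdet
    intro h
    have h3 := congrArg Matrix.det hUU
    rw [Matrix.det_mul, h, zero_mul, Matrix.det_one] at h3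
    exact zero_ne_one h3
  · rw [hB', Matrix.transpose_mul, Matrix.transpose_transpose]
    calc Bᵀ * B = Bᵀ * (U * Uᵀ) * B := by rw [hUU, Matrix.mul_one]
      _ = Bᵀ * U * (Uᵀ * B) := by simp only [Matrix.mul_assoc]
  · rw [Matrix.transpose_mul, Matrix.transpose_transpose]
    have h4 : Bᵀ * T * B = A := by
      rw [hT]
      have e1 : B⁻¹ * B = 1 := Matrix.nonsing_inv_mul B hBu
      have e2 : Bᵀ * B⁻¹ᵀ = 1 := by rw [← Matrix.transpose_mul, e1, Matrix.transpose_one]
      calc Bᵀ * (B⁻¹ᵀ * A * B⁻¹) * B = (Bᵀ * B⁻¹ᵀ) * A * (B⁻¹ * B) := by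
            simp only [Matrix.mul_assoc]
        _ = A := by rw [e1, e2, Matrix.one_mul, Matrix.mul_one]
    rw [← h4, hTU]
    simp only [Matrix.mul_assoc]

/-- the determinant in terms of the simultaneous diagonalisation -/
lemma det_combo (P : Matrix (Fin n) (Fin n) ℝ) (t : Fin n → ℝ) (a b : ℝ) :
    (a • (Pᵀ * P) + b • (Pᵀ * Matrix.diagonal t * P)).det = P.det ^ 2 * ∏ i, (a + b * t i) := by
  have : a • (Pᵀ * P) + b • (Pᵀ * Matrix.diagonal t * P) =
      Pᵀ * Matrix.diagonal (fun i => a + b * t i) * P := by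
    have h1 : Matrix.diagonal (fun i => a + b * t i) = a • (1 : Matrix (Fin n) (Fin n) ℝ) +
        b • Matrix.diagonal t := by
      ext i j
      by_cases h : i = j
      · subst h; simp
      · simp [h]
    rw [h1, Matrix.mul_add, Matrix.add_mul]
    simp
  rw [this, Matrix.det_mul, Matrix.det_mul, Matrix.det_transpose, Matrix.det_diagonal]
  ring

/-- two positive definite matrices diagonalised together -/
lemma simdiag_pos {A B : Matrix (Fin n) (Fin n) ℝ} (hA : A.PosDef) (hB : B.PosDef) :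
    ∃ (P : Matrix (Fin n) (Fin n) ℝ) (t : Fin n → ℝ), P.det ≠ 0 ∧ A + B = Pᵀ * P ∧
      A = Pᵀ * Matrix.diagonal t * P ∧ ∀ i, 0 < t i ∧ t i < 1 := by
  obtain ⟨P, t, hP, h1, h2⟩ := simdiag (hA.add hB) hA.1
  have hPu : IsUnit P.det := isUnit_iff_ne_zero.2 hP
  have h3 : B = Pᵀ * Matrix.diagonal (fun i => 1 - t i) * P := by
    have h40 : B = (A + B) - A := by abel
    rw [h40, h1]
    conv_lhs => rw [h2]
    have h4 : Matrix.diagonal (fun i => 1 - t i) = 1 - Matrix.diagonal t := by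
      ext i j
      by_cases h : i = j
      · subst h; simp
      · simp [h]
    rw [h4, Matrix.mul_sub, Matrix.sub_mul, Matrix.mul_one]
  have key : ∀ (s : Fin n → ℝ), (Pᵀ * Matrix.diagonal s * P).PosDef → ∀ i, 0 < s i := by
    intro s hs i
    set v : Fin n → ℝ := P⁻¹ *ᵥ Pi.single i 1 with hv
    have hPv : P *ᵥ v = Pi.single i 1 := by
      rw [hv, Matrix.mulVec_mulVec, Matrix.mul_nonsing_inv P hPu, Matrix.one_mulVec]
    have hv0 : v ≠ 0 := by
      intro h0
      rw [h0, Matrix.mulVec_zero] at hPv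
      have := congrFun hPv i
      simp at this
    have h5 := hs.dotProduct_mulVec_pos hv0
    have h6 : star v ⬝ᵥ ((Pᵀ * Matrix.diagonal s * P) *ᵥ v) = s i := by
      rw [← Matrix.mulVec_mulVec, hPv, ← Matrix.mulVec_mulVec, Matrix.dotProduct_mulVec]
      have : star v ᵥ* Pᵀ = Pi.single i 1 := by
        rw [Matrix.vecMul_transpose]
        simpa using hPv
      rw [this]
      simp
    rw [h6] at h5
    exact h5
  refine ⟨P, t, hP, h1, h2, fun i => ⟨key t (h2 ▸ hA) i, ?_⟩⟩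
  have := key (fun i => 1 - t i) (h3 ▸ hB) i
  linarith

/-- the determinant inequality behind the constants -/
lemma det_ineq {A B : Matrix (Fin n) (Fin n) ℝ} (hA : A.PosDef) (hB : B.PosDef) {c : ℝ}
    (hc0 : 0 < c) :
    (8 * c) ^ n * ((1 / 4 : ℝ) • (A + B)).det ^ 2 ≤
      ((1 / 2 : ℝ) • A + c • B).det * ((1 / 2 : ℝ) • B + c • A).det := by
  obtain ⟨P, t, hP, h1, h2, h3⟩ := simdiag_pos hA hB
  have e0 : (1 / 4 : ℝ) • (A + B) =
      (1 / 4 : ℝ) • (Pᵀ * P) + (0 : ℝ) • (Pᵀ * Matrix.diagonal t * P) := by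
    rw [h1, zero_smul, add_zero]
  have e1 : (1 / 2 : ℝ) • A + c • B = c • (Pᵀ * P) +
      (1 / 2 - c) • (Pᵀ * Matrix.diagonal t * P) := by
    rw [← h1, ← h2]
    ext i j
    simp only [Matrix.add_apply, Matrix.smul_apply, smul_eq_mul]
    ring
  have e2 : (1 / 2 : ℝ) • B + c • A = (1 / 2 : ℝ) • (Pᵀ * P) +
      (-(1 / 2 - c)) • (Pᵀ * Matrix.diagonal t * P) := by
    rw [← h1, ← h2]
    ext i j
    simp only [Matrix.add_apply, Matrix.smul_apply, smul_eq_mul]
    ring
  rw [e0, e1, e2, det_combo, det_combo, det_combo]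
  have h4 : (8 * c) ^ n * (∏ i : Fin n, (1 / 4 + 0 * t i)) ^ 2 ≤
      (∏ i, (c + (1 / 2 - c) * t i)) * ∏ i, (1 / 2 + -(1 / 2 - c) * t i) := by
    rw [← Finset.prod_pow, ← Finset.prod_mul_distrib]
    have : (8 * c) ^ n = ∏ _i : Fin n, (8 * c) := by
      rw [Finset.prod_const, Finset.card_univ, Fintype.card_fin]
    rw [this, ← Finset.prod_mul_distrib]
    refine Finset.prod_le_prod (fun i _ => by positivity) fun i _ => ?_
    have h5 := h3 i
    have h6 : 0 ≤ (1 / 2 - c) ^ 2 * (t i * (1 - t i)) :=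
      mul_nonneg (sq_nonneg _) (mul_pos h5.1 (sub_pos.2 h5.2)).le
    nlinarith
  have h5 : 0 ≤ P.det ^ 4 := by positivity
  nlinarith [mul_le_mul_of_nonneg_left h4 h5]

end Pool.Agent.H798.NM
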