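import Mathlib

/-!
Minkowski's theorem: a compact convex set `K` of `ℝⁿ` has a point `c` with `-(K - c) ⊆ n (K - c)`.
-/

set_option autoImplicit false

open Set
open scoped BigOperators

namespace Pool.Agent.H798.NM

/-- Minkowski's theorem, by Helly's theorem -/
theorem minkowski_point {n : ℕ} (hn : 1 ≤ n) {K : Set (EuclideanSpace ℝ (Fin n))}
    (hK : IsCompact K) (hc : Convex ℝ K) :
    ∃ c : EuclideanSpace ℝ (Fin n), ∀ x ∈ K, c - ((n : ℝ))⁻¹ • (x - c) ∈ K := by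
  have hn0 : (0 : ℝ) < n := by exact_mod_cast hn
  let F : K → Set (EuclideanSpace ℝ (Fin n)) := fun x =>
    (fun c => c - ((n : ℝ))⁻¹ • ((x : EuclideanSpace ℝ (Fin n)) - c)) ⁻¹' K
  have hrw : ∀ (x c : EuclideanSpace ℝ (Fin n)), c - ((n : ℝ))⁻¹ • (x - c) =
      AffineMap.lineMap x c (1 + ((n : ℝ))⁻¹) := by
    intro x c
    rw [AffineMap.lineMap_apply_module]
    module
  have hconv : ∀ x, Convex ℝ (F x) := by
    intro x a ha b hb s t hs ht hst
    show (s • a + t • b) - ((n : ℝ))⁻¹ • ((x : EuclideanSpace ℝ (Fin n)) - (s • a + t • b)) ∈ K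
    have h1 := hc ha hb hs ht hst
    have e : s • (a - ((n : ℝ))⁻¹ • ((x : EuclideanSpace ℝ (Fin n)) - a)) +
        t • (b - ((n : ℝ))⁻¹ • ((x : EuclideanSpace ℝ (Fin n)) - b)) =
        (s • a + t • b) - ((n : ℝ))⁻¹ • ((x : EuclideanSpace ℝ (Fin n)) - (s • a + t • b)) := by
      have hx : (x : EuclideanSpace ℝ (Fin n)) = s • (x : EuclideanSpace ℝ (Fin n)) +
          t • (x : EuclideanSpace ℝ (Fin n)) := by rw [← add_smul, hst, one_smul]
      conv_rhs => rw [hx]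
      module
    rw [← e]
    exact h1
  have hcomp : ∀ x, IsCompact (F x) := by
    intro x
    have h1 : F x = (fun y => ((n : ℝ) / (n + 1)) • y +
        (1 / ((n : ℝ) + 1)) • (x : EuclideanSpace ℝ (Fin n))) '' K := by
      ext c
      constructor
      · intro hcx
        refine ⟨_, hcx, ?_⟩
        show ((n : ℝ) / (n + 1)) • (c - ((n : ℝ))⁻¹ • ((x : EuclideanSpace ℝ (Fin n)) - c)) +
          (1 / ((n : ℝ) + 1)) • (x : EuclideanSpace ℝ (Fin n)) = c
        rw [smul_sub, smul_smul, smul_sub]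
        have e1 : (n : ℝ) / (n + 1) * ((n : ℝ))⁻¹ = 1 / ((n : ℝ) + 1) := by field_simp
        rw [e1]
        have e2 : ((n : ℝ) / (n + 1)) • c + (1 / ((n : ℝ) + 1)) • c = c := by
          rw [← add_smul]
          have : (n : ℝ) / (n + 1) + 1 / ((n : ℝ) + 1) = 1 := by field_simp
          rw [this, one_smul]
        calc _ = ((n : ℝ) / (n + 1)) • c + (1 / ((n : ℝ) + 1)) • c := by abel
          _ = c := e2
      · rintro ⟨y, hy, rfl⟩
        show (((n : ℝ) / (n + 1)) • y + (1 / ((n : ℝ) + 1)) • (x : EuclideanSpace ℝ (Fin n))) -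
          ((n : ℝ))⁻¹ • ((x : EuclideanSpace ℝ (Fin n)) - (((n : ℝ) / (n + 1)) • y +
            (1 / ((n : ℝ) + 1)) • (x : EuclideanSpace ℝ (Fin n)))) ∈ K
        have e3 : (((n : ℝ) / (n + 1)) • y + (1 / ((n : ℝ) + 1)) • (x : EuclideanSpace ℝ (Fin n))) -
          ((n : ℝ))⁻¹ • ((x : EuclideanSpace ℝ (Fin n)) - (((n : ℝ) / (n + 1)) • y +
            (1 / ((n : ℝ) + 1)) • (x : EuclideanSpace ℝ (Fin n)))) = y := by
          have e4 : ((n : ℝ) / (n + 1)) + ((n : ℝ))⁻¹ * ((n : ℝ) / (n + 1)) = 1 := by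
            field_simp
          have e5 : (1 / ((n : ℝ) + 1)) + ((n : ℝ))⁻¹ * (1 / ((n : ℝ) + 1)) - ((n : ℝ))⁻¹ = 0 := by
            field_simp
            ring
          calc _ = (((n : ℝ) / (n + 1)) + ((n : ℝ))⁻¹ * ((n : ℝ) / (n + 1))) • y +
              ((1 / ((n : ℝ) + 1)) + ((n : ℝ))⁻¹ * (1 / ((n : ℝ) + 1)) - ((n : ℝ))⁻¹) •
                (x : EuclideanSpace ℝ (Fin n)) := by module
            _ = y := by rw [e4, e5, one_smul, zero_smul, add_zero]
        rw [e3]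
        exact hy
    rw [h1]
    exact hK.image (by fun_prop)
  have hinter : ∀ I : Finset K,
      I.card ≤ Module.finrank ℝ (EuclideanSpace ℝ (Fin n)) + 1 → (⋂ i ∈ I, F i).Nonempty := by
    intro I hI
    rw [finrank_euclideanSpace_fin] at hI
    rcases I.eq_empty_or_nonempty with rfl | hne
    · simp
    set k : ℝ := (I.card : ℝ) with hk
    have hk0 : 0 < k := by rw [hk]; exact_mod_cast hne.card_pos
    have hkn : k ≤ n + 1 := by rw [hk]; exact_mod_cast hI
    refine ⟨∑ j ∈ I, k⁻¹ • (j : EuclideanSpace ℝ (Fin n)), ?_⟩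
    rw [mem_iInter₂]
    intro i hi
    show (∑ j ∈ I, k⁻¹ • (j : EuclideanSpace ℝ (Fin n))) - ((n : ℝ))⁻¹ •
      ((i : EuclideanSpace ℝ (Fin n)) - ∑ j ∈ I, k⁻¹ • (j : EuclideanSpace ℝ (Fin n))) ∈ K
    classical
    let w : K → ℝ := fun j => (1 + ((n : ℝ))⁻¹) * k⁻¹ - if j = i then ((n : ℝ))⁻¹ else 0
    have hw0 : ∀ j ∈ I, 0 ≤ w j := by
      intro j _
      simp only [w]
      split_ifs
      · have : ((n : ℝ))⁻¹ ≤ (1 + ((n : ℝ))⁻¹) * k⁻¹ := by
          rw [← div_eq_mul_inv, le_div_iff₀ hk0]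
          calc ((n : ℝ))⁻¹ * k ≤ ((n : ℝ))⁻¹ * (n + 1) := by gcongr
            _ = 1 + ((n : ℝ))⁻¹ := by field_simp
        linarith
      · rw [sub_zero]
        positivity
    have hw1 : ∑ j ∈ I, w j = 1 := by
      simp only [w]
      rw [Finset.sum_sub_distrib, Finset.sum_const, Finset.sum_ite_eq' I i, if_pos hi, nsmul_eq_mul,
        ← hk]
      field_simp
      ring
    have h2 : ∑ j ∈ I, w j • (j : EuclideanSpace ℝ (Fin n)) ∈ K :=
      hc.sum_mem hw0 hw1 fun j _ => j.2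
    set S : EuclideanSpace ℝ (Fin n) := ∑ j ∈ I, k⁻¹ • (j : EuclideanSpace ℝ (Fin n)) with hS
    have h3 : ∑ j ∈ I, w j • (j : EuclideanSpace ℝ (Fin n)) =
        S - ((n : ℝ))⁻¹ • ((i : EuclideanSpace ℝ (Fin n)) - S) := by
      have h4 : ∀ j ∈ I, w j • (j : EuclideanSpace ℝ (Fin n)) =
          (1 + ((n : ℝ))⁻¹) • (k⁻¹ • (j : EuclideanSpace ℝ (Fin n))) -
            if j = i then ((n : ℝ))⁻¹ • (i : EuclideanSpace ℝ (Fin n)) else 0 := by
        intro j _
        simp only [w]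
        rw [sub_smul, mul_smul]
        congr 1
        split_ifs with hji
        · rw [hji]
        · rw [zero_smul]
      rw [Finset.sum_congr rfl h4, Finset.sum_sub_distrib, ← Finset.smul_sum, ← hS,
        Finset.sum_ite_eq' I i, if_pos hi]
      module
    rw [← h3]
    exact h2
  obtain ⟨c, hcI⟩ := Convex.helly_theorem_compact' (𝕜 := ℝ) hconv hcomp hinter
  refine ⟨c, fun x hx => ?_⟩
  exact (mem_iInter.1 hcI ⟨x, hx⟩)

end Pool.Agent.H798.NM
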