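import Pool.Agent.H798.NM.Asym
import Pool.Agent.H798.NM.Mink
import Pool.Agent.H771.LT.H

/-!
`∫ exp (-h_K) = n! |K°|` for bodies with the origin inside, and the divergence of the Mahler
volumes for the other positions.
-/

set_option autoImplicit false

open MeasureTheory Set Filter Topology
open scoped Matrix BigOperators Pointwise

namespace Pool.Agent.H798.NM

open Pool.Agent.H771.LT (J continuous_hs hs_smul le_hs)

variable {n : ℕ} {K : Set (Fin n → ℝ)}

lemma lint_exp_neg (a : ℝ) (ha : 0 ≤ a) :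
    ∫⁻ t in Ioi (0 : ℝ), (Ici a).indicator (fun t => ENNReal.ofReal (Real.exp (-t))) t =
      ENNReal.ofReal (Real.exp (-a)) := by
  rw [lintegral_indicator measurableSet_Ici, Measure.restrict_restrict measurableSet_Ici]
  have e : (Ici a ∩ Ioi 0 : Set ℝ) =ᵐ[volume] Ioi a := by
    refine Filter.EventuallyLE.antisymm ?_ ?_
    · have h1 : (Ici a ∩ Ioi 0 : Set ℝ) ≤ᵐ[volume] Ici a :=
        (inter_subset_left : Ici a ∩ Ioi 0 ⊆ Ici a).eventuallyLE
      exact h1.trans Ioi_ae_eq_Ici.symm.le
    · have h2 : Ioi a ⊆ Ici a ∩ Ioi 0 := by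
        intro t ht
        have ht' : a < t := ht
        exact ⟨ht'.le, lt_of_le_of_lt ha ht'⟩
      exact h2.eventuallyLE
  rw [Measure.restrict_congr_set e, ← integral_exp_neg_Ioi a,
    ofReal_integral_eq_lintegral_ofReal (integrableOn_exp_neg_Ioi a)
      (Eventually.of_forall fun t => (Real.exp_pos _).le)]

lemma plr_eq (h : W679AM.OBody K) : H712MA.GB.plr K = {y | W679AM.hs K y ≤ 1} := by
  ext y
  constructor
  · intro hy
    exact W679AM.GAaux.hs_le h y 1 hy
  · intro hy x hx
    exact (W679AM.GAaux.le_hs h hx y).trans hy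

lemma level_vol (h : W679AM.OBody K) {t : ℝ} (ht : 0 < t) :
    volume {y | W679AM.hs K y ≤ t} = ENNReal.ofReal (t ^ n) * volume (H712MA.GB.plr K) := by
  have e : {y | W679AM.hs K y ≤ t} = t • H712MA.GB.plr K := by
    rw [plr_eq h]
    ext y
    rw [mem_smul_set_iff_inv_smul_mem₀ ht.ne']
    have h1 : W679AM.hs K (t⁻¹ • y) = t⁻¹ * W679AM.hs K y := hs_smul (by positivity) y
    simp only [mem_ofPred_eq]
    rw [h1, inv_mul_le_iff₀ ht, mul_one]
  rw [e, Measure.addHaar_smul, Module.finrank_fintype_fun_eq_card, Fintype.card_fin,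
    abs_of_pos (by positivity)]

/-- `∫ exp (-h_K) = n! |K°|` -/
theorem lint_hs (h : W679AM.OBody K) :
    ∫⁻ y, ENNReal.ofReal (Real.exp (-W679AM.hs K y)) =
      n.factorial * volume (H712MA.GB.plr K) := by
  have hcont := W679AM.GAaux.hs_cont h
  have e1 : ∀ y : Fin n → ℝ, ENNReal.ofReal (Real.exp (-W679AM.hs K y)) =
      ∫⁻ t in Ioi (0 : ℝ), (Ici (W679AM.hs K y)).indicator
        (fun t => ENNReal.ofReal (Real.exp (-t))) t :=
    fun y => (lint_exp_neg _ (W679AM.GAaux.hs_nonneg h y)).symm
  rw [lintegral_congr e1, lintegral_lintegral_swap]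
  · have e2 : ∀ t ∈ Ioi (0 : ℝ), ∫⁻ y : Fin n → ℝ, (Ici (W679AM.hs K y)).indicator
        (fun t => ENNReal.ofReal (Real.exp (-t))) t =
        volume (H712MA.GB.plr K) * ENNReal.ofReal (Real.exp (-t) * t ^ (((n : ℝ) + 1) - 1)) := by
      intro t ht
      have e3 : ∀ y : Fin n → ℝ, (Ici (W679AM.hs K y)).indicator
          (fun t => ENNReal.ofReal (Real.exp (-t))) t =
          {y | W679AM.hs K y ≤ t}.indicator (fun _ => ENNReal.ofReal (Real.exp (-t))) y := by
        intro y
        by_cases hy : W679AM.hs K y ≤ t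
        · rw [indicator_of_mem (show t ∈ Ici (W679AM.hs K y) from hy),
            indicator_of_mem (show y ∈ {y | W679AM.hs K y ≤ t} from hy)]
        · rw [indicator_of_notMem (show t ∉ Ici (W679AM.hs K y) from hy),
            indicator_of_notMem (show y ∉ {y | W679AM.hs K y ≤ t} from hy)]
      rw [lintegral_congr e3, lintegral_indicator (isClosed_le hcont continuous_const).measurableSet,
        setLIntegral_const, level_vol h ht, add_sub_cancel_right, Real.rpow_natCast,
        ENNReal.ofReal_mul (Real.exp_pos _).le]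
      ring
    rw [setLIntegral_congr_fun measurableSet_Ioi e2, lintegral_const_mul' _ _
      (W679AM.GAaux.plr_bddA h).measure_lt_top.ne, ← ofReal_integral_eq_lintegral_ofReal
      (Real.GammaIntegral_convergent (by positivity)) ?_, ← Real.Gamma_eq_integral (by positivity),
      Real.Gamma_nat_eq_factorial, ENNReal.ofReal_natCast, mul_comm]
    filter_upwards [self_mem_ae_restrict measurableSet_Ioi] with t ht
    have : (0 : ℝ) < t := ht
    positivity
  · have hm : MeasurableSet {p : (Fin n → ℝ) × ℝ | W679AM.hs K p.1 ≤ p.2} :=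
      (isClosed_le (hcont.comp continuous_fst) continuous_snd).measurableSet
    have : (Function.uncurry fun (y : Fin n → ℝ) (t : ℝ) => (Ici (W679AM.hs K y)).indicator
        (fun t => ENNReal.ofReal (Real.exp (-t))) t) =
        {p : (Fin n → ℝ) × ℝ | W679AM.hs K p.1 ≤ p.2}.indicator
          (fun p => ENNReal.ofReal (Real.exp (-p.2))) := by
      funext ⟨y, t⟩
      rfl
    rw [this]
    exact (Measurable.indicator (by fun_prop) hm).aemeasurable

/-- a positive function which increases along a direction has infinite integral -/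
theorem lint_eq_top {f : EuclideanSpace ℝ (Fin n) → ENNReal} (hf : Measurable f)
    (hpos : ∀ y, 0 < f y) {v : EuclideanSpace ℝ (Fin n)} (hv : v ≠ 0)
    (hmono : ∀ y, f y ≤ f (y + v)) : ∫⁻ y, f y = ⊤ := by
  have hv2 : 0 < ‖v‖ ^ 2 := by positivity
  set l : EuclideanSpace ℝ (Fin n) → ℝ := fun y => inner ℝ v y / ‖v‖ ^ 2 with hl
  have hlc : Continuous l := by fun_prop
  have hlv : ∀ y, l (y + v) = l y + 1 := by
    intro y
    simp only [hl, inner_add_right, real_inner_self_eq_norm_sq]
    field_simp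
  set S : ℕ → Set (EuclideanSpace ℝ (Fin n)) := fun k => l ⁻¹' Ico (k : ℝ) (k + 1) with hS
  have hSm : ∀ k, MeasurableSet (S k) := fun k => hlc.measurable measurableSet_Ico
  have hdisj : Pairwise (Function.onFun Disjoint S) := by
    intro i j hij
    refine Set.disjoint_left.2 fun y hi hj => hij ?_
    have h1 : ⌊l y⌋ = (i : ℤ) := Int.floor_eq_iff.2 ⟨by exact_mod_cast hi.1, by exact_mod_cast hi.2⟩
    have h2 : ⌊l y⌋ = (j : ℤ) := Int.floor_eq_iff.2 ⟨by exact_mod_cast hj.1, by exact_mod_cast hj.2⟩
    exact_mod_cast h1.symm.trans h2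
  set a : ℕ → ENNReal := fun k => ∫⁻ y in S k, f y with ha
  have hstep : ∀ k, a k ≤ a (k + 1) := by
    intro k
    have e1 : a (k + 1) = ∫⁻ y, (S (k + 1)).indicator f (y + v) := by
      rw [lintegral_add_right_eq_self (fun y => (S (k + 1)).indicator f y) v,
        lintegral_indicator (hSm _)]
    rw [e1, ha]
    simp only
    rw [← lintegral_indicator (hSm k)]
    refine lintegral_mono fun y => ?_
    by_cases hy : y ∈ S k
    · have hy2 : y + v ∈ S (k + 1) := by
        have h1 : (k : ℝ) ≤ l y := hy.1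
        have h2 : l y < k + 1 := hy.2
        show l (y + v) ∈ Ico (((k + 1 : ℕ) : ℝ)) (((k + 1 : ℕ) : ℝ) + 1)
        rw [hlv]
        push_cast
        exact ⟨by linarith, by linarith⟩
      rw [indicator_of_mem hy, indicator_of_mem hy2]
      exact hmono y
    · rw [indicator_of_notMem hy]
      exact bot_le
  have h0 : 0 < a 0 := by
    rw [ha]
    simp only
    rw [setLIntegral_pos_iff hf]
    have h1 : Function.support f = univ := by
      ext y; simp [(hpos y).ne']
    rw [h1, univ_inter]
    have h2 : (l ⁻¹' Ioo (0 : ℝ) 1) ⊆ S 0 := by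
      intro y hy
      exact ⟨by simpa using hy.1.le, by simpa using hy.2⟩
    refine lt_of_lt_of_le ?_ (measure_mono h2)
    refine (isOpen_Ioo.preimage hlc).measure_pos volume ⟨(1 / 2 : ℝ) • v, ?_⟩
    show l ((1 / 2 : ℝ) • v) ∈ Ioo (0 : ℝ) 1
    have : l ((1 / 2 : ℝ) • v) = 1 / 2 := by
      simp only [hl, inner_smul_right, real_inner_self_eq_norm_sq]
      field_simp
    rw [this]
    norm_num
  have hle : ∀ k, a 0 ≤ a k := by
    intro k
    induction k with
    | zero => exact le_rfl
    | succ k ih => exact ih.trans (hstep k)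
  have hsum : ∑' k, a k ≤ ∫⁻ y, f y := by
    rw [ha, ← lintegral_iUnion hSm hdisj]
    exact setLIntegral_le_lintegral _ _
  have htop : ∑' k, a k = ⊤ := by
    refine top_le_iff.1 ?_
    calc (⊤ : ENNReal) = ∑' _ : ℕ, a 0 := (ENNReal.tsum_const_eq_top_of_ne_zero h0.ne').symm
      _ ≤ ∑' k, a k := ENNReal.tsum_le_tsum hle
  exact top_le_iff.1 (htop ▸ hsum)

/-- a half space containing `K` if the origin is not an interior point -/
theorem exists_dir {K : Set (EuclideanSpace ℝ (Fin n))} (hc : Convex ℝ K)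
    (hi : (interior K).Nonempty) (h0 : (0 : EuclideanSpace ℝ (Fin n)) ∉ interior K) :
    ∃ v : EuclideanSpace ℝ (Fin n), v ≠ 0 ∧ ∀ x ∈ K, inner ℝ x v ≤ 0 := by
  obtain ⟨f, hf⟩ := geometric_hahn_banach_open_point hc.interior isOpen_interior h0
  rw [map_zero] at hf
  set v := (InnerProductSpace.toDual ℝ (EuclideanSpace ℝ (Fin n))).symm f with hv
  have hfv : ∀ x, inner ℝ x v = f x := by
    intro x
    rw [real_inner_comm, hv, InnerProductSpace.toDual_symm_apply]
  refine ⟨v, ?_, ?_⟩
  · intro hv0
    obtain ⟨x, hx⟩ := hi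
    have h1 := hf x hx
    rw [← hfv, hv0, inner_zero_right] at h1
    exact lt_irrefl _ h1
  · intro x hx
    rw [hfv]
    have h1 : x ∈ closure (interior K) := by
      rw [hc.closure_interior_eq_closure_of_nonempty_interior hi]
      exact subset_closure hx
    have h2 : IsClosed {x | f x ≤ 0} := isClosed_le f.continuous continuous_const
    exact closure_minimal (fun y hy => (hf y hy).le) h2 h1

end Pool.Agent.H798.NM
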