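import Pool.Agent.H276.NM.Euc

/-!
# The non-symmetric Mahler inequality with the constant `5/2`, in all dimensions and for all `p`

For every convex body `K` of `ℝⁿ` and every interior point `z` of `K`

`n! |K| |(K - z)°| ≥ (5/2)ⁿ`,

and more precisely `n! |K| |(K - z)°| ≥ max (5/2, 4 √((β+1)/(3β-1)))ⁿ` if `-(K - c) ⊆ β (K - c)`
for some point `c` (`β = 1`: the sharp `4ⁿ`; by Minkowski's theorem `β = n` is always possible).
Hence `M_p(K) ≥ max (5/2, 4 √((n+1)/(3n-1)))ⁿ` for all `p ∈ (0, ∞]` and all convex bodies in all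
positions.

The proof of the constant `5/2` (helper276, `Pool.Agent.H276.NM`).  Let `0` be an interior point of
`K`, let `g` be the gauge of `K` and `h` the gauge of `conv (K ∪ -K)`.  New is the inequality

`(∫ e^(-g))⁸ ≥ 4ⁿ (∫ e^(-(4/5)(g(z) + g(-z))) dz)⁵ (∫ e^(-h))³`,

which together with the Rogers-Shephard inequality `∫ e^(-h) ≤ 2ⁿ ∫ e^(-g)` gives

`|K ∩ -K| |conv (K ∪ -K)| ≤ (8/5)ⁿ |K|²`.

This is applied to `K` and to `K°`, and multiplied with the symmetric Mahler inequality (library)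
for `K ∩ -K = (conv (K° ∪ -K°))°` and for `conv (K ∪ -K) = (K° ∩ -K°)°`.  Proof of the new
inequality: let `K` be approximated by the convex hull of generic points.  The facets of
`conv (K ∪ -K)` are simplices, over which there are simplicial cones `C_v = F_v + G_v`, `F_v`
generated by points of `K` and `G_v` by points of `-K`, `v` the vertices of the polar body.  Divide
`ℝⁿ` into power cells `L_v` with the centres `v` and with masses (for the second density)
proportional to the masses of the cones (for the third one).  The sets `L_v + F_v` are disjoint,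
and so are the sets `L_v + G_v`.  If `P(x + t e_i) ≥ e^(-t) P(x)` for `i ∈ I` and
`N(x + t e_i) ≥ e^(-t) N(x)` for `i ∉ I`, then `4ⁿ (∫ (P N)^(4/5))⁵ ≤ (∫ P ∫ N)⁴` (by induction from
`4 ∫ P⁴ ≤ (∫ P)⁴` in one variable).  This is applied in every cell, and the results are added with
the Cauchy-Schwarz inequality.

The second constant is due to helper798 (`Pool.Agent.H798.NM`): let `h_z` be the support function
of `K - z` and `M = {x : |⟨x, u⟩| (h_z(u) + h_z(-u)) ≤ h_z(u) h_z(-u) for all u}`; the library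
theorem `Pool.Graph.R_seed8.W679.AM` says `|M| |(K - z)°| ≥ 2ⁿ/n!`, and a transport argument gives
`|K| ≥ (4(β+1)/(3β-1))^(n/2) |M|`.
-/

set_option autoImplicit false

noncomputable section

open MeasureTheory
open scoped RealInnerProductSpace

namespace Pool.Agent.Results.MP_5f4cdd_gt.UniversalConstant

variable {n : ℕ}

/-- convex bodies in `ℝⁿ`, in any position -/
def Body (K : Set (EuclideanSpace ℝ (Fin n))) : Prop :=
  Convex ℝ K ∧ IsCompact K ∧ (interior K).Nonempty

/-- the polar body `(K - z)°` -/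
def polar (K : Set (EuclideanSpace ℝ (Fin n))) (z : EuclideanSpace ℝ (Fin n)) :
    Set (EuclideanSpace ℝ (Fin n)) := {y | ∀ x ∈ K, ⟪x - z, y⟫ ≤ 1}

/-- the support function `h_K = h_{∞,K}` -/
def support (K : Set (EuclideanSpace ℝ (Fin n))) (y : EuclideanSpace ℝ (Fin n)) : ℝ :=
  sSup ((fun x => ⟪x, y⟫) '' K)

/-- the `L^p` support function `h_{p,K}(y) = (1/p) log (|K|⁻¹ ∫_K exp (p ⟨x, y⟩) dx)` -/
def supportLp (p : ℝ) (K : Set (EuclideanSpace ℝ (Fin n))) (y : EuclideanSpace ℝ (Fin n)) : ℝ :=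
  (1 / p) * Real.log ((∫ x in K, Real.exp (p * ⟪x, y⟫)) / volume.real K)

/-- the Mahler volume `M_∞(K) = |K| ∫ exp (-h_K)` -/
def mahlerInf (K : Set (EuclideanSpace ℝ (Fin n))) : ENNReal :=
  volume K * ∫⁻ y : EuclideanSpace ℝ (Fin n), ENNReal.ofReal (Real.exp (-support K y))

/-- the `L^p` Mahler volume `M_p(K) = |K| ∫ exp (-h_{p,K})` -/
def mahlerLp (p : ℝ) (K : Set (EuclideanSpace ℝ (Fin n))) : ENNReal :=
  volume K * ∫⁻ y : EuclideanSpace ℝ (Fin n), ENNReal.ofReal (Real.exp (-supportLp p K y))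

/-- the constant `c(β) = max (5/2, 4 √((β+1)/(3β-1)))` -/
def constant (β : ℝ) : ℝ := max (5 / 2) (4 * √((β + 1) / (3 * β - 1)))

/-- **Lower bounds of all the Mahler volumes of all convex bodies.** -/
theorem result (n : ℕ) (hn : 1 ≤ n) (K : Set (EuclideanSpace ℝ (Fin n))) (hK : Body K) :
    -- (1) all bodies
    (∀ z ∈ interior K, constant n ^ n / n.factorial ≤
        volume.real K * volume.real (polar K z)) ∧
    -- (2) bodies of asymmetry at most `β`
    (∀ β : ℝ, 1 ≤ β → ∀ c : EuclideanSpace ℝ (Fin n), (∀ x ∈ K, c - β⁻¹ • (x - c) ∈ K) →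
      ∀ z ∈ interior K, constant β ^ n / n.factorial ≤
        volume.real K * volume.real (polar K z)) ∧
    -- (3) `p = ∞`, any position
    ENNReal.ofReal (constant n ^ n) ≤ mahlerInf K ∧
    -- (4) finite `p`, any position
    (∀ p : ℝ, 0 < p →
      ENNReal.ofReal (constant n ^ n) ≤ mahlerLp p K ∧
      ENNReal.ofReal (((1 + 1 / (2 * p)) ^ (1 + 1 / (2 * p)) * (p / (2 * Real.pi)) ^ (1 / (2 * p)) *
        constant n ^ (1 + 1 / (2 * p))) ^ n) ≤ mahlerLp p K) := by
  obtain ⟨hv, hc, hi⟩ := hK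
  have hn1 : (1 : ℝ) ≤ n := by exact_mod_cast hn
  have h1 : ∀ z ∈ interior K, Pool.Agent.H276.NM.mcst n ^ n / n.factorial ≤
      volume.real K * volume.real (W679AM.plz K z) := by
    intro z hz
    obtain ⟨c, hsym⟩ := Pool.Agent.H798.NM.minkowski_point hn hc hv
    exact Pool.Agent.H276.NM.max_euclid hc hv hz hn1 hsym
  have h0 := Pool.Agent.H276.NM.mcst_nonneg n
  exact ⟨h1, fun β hβ c hsym z hz => Pool.Agent.H276.NM.max_euclid hc hv hz hβ hsym,
    Pool.Agent.H276.NM.inf_all h0 hc hv hi h1,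
    fun p hp => ⟨Pool.Agent.H276.NM.lp_all h0 hc hv hi h1 hp,
      Pool.Agent.H276.NM.lp_gain h0 hc hv hi h1 hp⟩⟩

end Pool.Agent.Results.MP_5f4cdd_gt.UniversalConstant

end
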