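import Pool.Agent.H798.NM.Core

/-!
The volume inequality: if `M = -M ⊆ K` and `4 M` is in the interior of `K - K`, then
`(4/3)^(n/2) |M| ≤ |K|`.
-/

set_option autoImplicit false

open MeasureTheory Set Filter Topology
open scoped Matrix BigOperators

namespace Pool.Agent.H798.NM

open Pool.Agent.H771.LT

variable {n : ℕ} {K : Set (Fin n → ℝ)}

/-- a matrix as a continuous linear map -/
noncomputable def mc (A : Matrix (Fin n) (Fin n) ℝ) : (Fin n → ℝ) →L[ℝ] (Fin n → ℝ) :=
  LinearMap.toContinuousLinearMap (Matrix.toLin' A)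

lemma mc_apply (A : Matrix (Fin n) (Fin n) ℝ) (v : Fin n → ℝ) : mc A v = A *ᵥ v := rfl

lemma mc_det (A : Matrix (Fin n) (Fin n) ℝ) : (mc A).det = A.det := by
  unfold mc
  rw [ContinuousLinearMap.det, LinearMap.coe_toContinuousLinearMap, LinearMap.det_toLin']

/-- a map with positive definite derivatives is injective -/
lemma inj_of_posDef {T : (Fin n → ℝ) → (Fin n → ℝ)} {D : (Fin n → ℝ) → Matrix (Fin n) (Fin n) ℝ}
    (hT : ∀ u, HasFDerivAt T (mc (D u)) u) (hD : ∀ u, (D u).PosDef) : Function.Injective T := by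
  intro y z hyz
  by_contra hne
  have hv : y - z ≠ 0 := sub_ne_zero.2 hne
  set v := y - z with hvdef
  let φ : ℝ → ℝ := fun t => v ⬝ᵥ T (z + t • v)
  have hder : ∀ t, HasDerivAt φ (v ⬝ᵥ (D (z + t • v) *ᵥ v)) t := by
    intro t
    have h1 : HasDerivAt (fun t : ℝ => z + t • v) v t := by
      simpa using ((hasDerivAt_id t).smul_const v).const_add z
    have h2 := (hT (z + t • v)).comp_hasDerivAt t h1
    have h3 := (lf v).hasFDerivAt.comp_hasDerivAt t h2
    have h4 : φ = (fun t => lf v (T (z + t • v))) := by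
      funext t; rw [lf_apply]
    rw [h4]
    rw [lf_apply, mc_apply] at h3
    exact h3
  have hmono : StrictMono φ := strictMono_of_deriv_pos fun t => by
    rw [(hder t).deriv]
    simpa using (hD (z + t • v)).dotProduct_mulVec_pos hv
  have h01 := hmono (zero_lt_one (α := ℝ))
  simp only [φ, zero_smul, add_zero, one_smul] at h01
  have : z + v = y := by rw [hvdef]; abel
  rw [this, hyz] at h01
  exact lt_irrefl _ h01

/-- the derivative of the combinations of `G(u)` and `G(-u)` -/
lemma hasFDerivAt_combo (h : Bdy K) (a b : ℝ) (u : Fin n → ℝ) :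
    HasFDerivAt (fun u => a • G K u - b • G K (-u)) (mc (a • C K u + b • C K (-u))) u := by
  have h1 := (hasFDerivAt_G h u).const_smul a
  have h2 : HasFDerivAt (fun u : Fin n → ℝ => -u)
      (-ContinuousLinearMap.id ℝ (Fin n → ℝ)) u := (hasFDerivAt_id u).neg
  have h3 := ((hasFDerivAt_G h (-u)).comp u h2).const_smul b
  refine (h1.sub h3).congr_fderiv ?_
  ext1 v
  simp only [sub_apply, smul_apply, CL_apply, ContinuousLinearMap.comp_apply, neg_apply,
    ContinuousLinearMap.id_apply, mc_apply, Matrix.add_mulVec, Matrix.smul_mulVec,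
    Matrix.mulVec_neg, smul_neg, sub_neg_eq_add]

lemma continuous_combo (h : Bdy K) (a b : ℝ) : Continuous fun u => a • G K u - b • G K (-u) :=
  continuous_iff_continuousAt.2 fun u => (hasFDerivAt_combo h a b u).continuousAt

lemma posDef_combo (h : Bdy K) {a b : ℝ} (ha : 0 < a) (hb : 0 < b) (u : Fin n → ℝ) :
    (a • C K u + b • C K (-u)).PosDef :=
  ((C_posDef h u).smul ha).add ((C_posDef h (-u)).smul hb)

/-- **The volume inequality.**  Here `M` is symmetric, it lies in a translate of `(β/(1+β)) K`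
and `4 M` lies in the interior of the difference body of `K`. -/
theorem vol_ineq (h : Bdy K) (hc : Convex ℝ K) {β : ℝ} (hβ : 1 ≤ β) {M : Set (Fin n → ℝ)}
    (hM : MeasurableSet M) {s : Fin n → ℝ} (hMK : ∀ y ∈ M, ∃ x ∈ K, y = (β / (1 + β)) • x + s)
    (hsym : ∀ x ∈ M, -x ∈ M)
    {δ : ℝ} (hδ : 0 < δ) (hy : ∀ y ∈ M, ∀ u, 4 * (y ⬝ᵥ u) + δ * S1 u ≤ hs K u + hs K (-u)) :
    ENNReal.ofReal (√(4 * (1 + β) / (3 * β - 1)) ^ n) * volume M ≤ volume K := by
  have h3β : 0 < 3 * β - 1 := by linarith
  have h1β : 0 < 1 + β := by linarith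
  have hne : 3 * β - 1 ≠ 0 := h3β.ne'
  have hne1 : 1 + β ≠ 0 := h1β.ne'
  set c : ℝ := (1 + β) / (2 * (3 * β - 1)) with hcdef
  have hc0 : 0 < c := by positivity
  have hc8 : 8 * c = 4 * (1 + β) / (3 * β - 1) := by
    rw [hcdef]; field_simp; ring
  rw [← hc8]
  set X : (Fin n → ℝ) → (Fin n → ℝ) := fun u => (1 / 4 : ℝ) • G K u - (1 / 4 : ℝ) • G K (-u)
    with hX
  set T : (Fin n → ℝ) → (Fin n → ℝ) := fun u => (1 / 2 : ℝ) • G K u - c • G K (-u)
    with hT
  set U : Set (Fin n → ℝ) := X ⁻¹' M with hU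
  have hUm : MeasurableSet U := (continuous_combo h _ _).measurable hM
  have hXimg : X '' U = M := by
    apply subset_antisymm
    · rintro _ ⟨u, hu, rfl⟩; exact hu
    · intro y hyM
      obtain ⟨u, hu⟩ := surj h hc y hδ (hy y hyM)
      have hu' : X u = y := by rw [← hu, hX, smul_sub]
      exact ⟨u, by rw [hU, mem_preimage, hu']; exact hyM, hu'⟩
  have hTimg : T '' U ⊆ (fun x => x + (4 * c) • s) '' K := by
    rintro _ ⟨u, hu, rfl⟩
    have h1 : T u = (4 * c) • X u + ((β - 1) / (3 * β - 1)) • G K u := by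
      have e1 : (β - 1) / (3 * β - 1) = 1 / 2 - c := by
        rw [hcdef, eq_sub_iff_add_eq, div_add_div _ _ hne (by positivity),
          div_eq_div_iff (by positivity) (by norm_num)]
        ring
      rw [e1]
      simp only [hT, hX, smul_sub, smul_smul]
      module
    obtain ⟨x, hxK, hx⟩ := hMK (X u) hu
    refine ⟨(4 * c * (β / (1 + β))) • x + ((β - 1) / (3 * β - 1)) • G K u, ?_, ?_⟩
    · refine hc hxK (G_mem h hc u) (by positivity) (div_nonneg (by linarith) h3β.le) ?_
      have e2 : 4 * c * (β / (1 + β)) = 2 * β / (3 * β - 1) := by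
        rw [hcdef]; field_simp; ring
      rw [e2, ← add_div, div_eq_one_iff_eq hne]
      ring
    · show (4 * c * (β / (1 + β))) • x + ((β - 1) / (3 * β - 1)) • G K u + (4 * c) • s = T u
      rw [h1, hx, smul_add, smul_smul]
      abel
  have hXinj : Function.Injective X :=
    inj_of_posDef (hasFDerivAt_combo h _ _) (posDef_combo h (by norm_num) (by norm_num))
  have hTinj : Function.Injective T :=
    inj_of_posDef (hasFDerivAt_combo h _ _) (posDef_combo h (by norm_num) hc0)
  have hUneg : ∀ u, -u ∈ U ↔ u ∈ U := by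
    have h1 : ∀ u, X (-u) = -X u := by
      intro u; simp only [hX, neg_neg]; module
    have h2 : ∀ u, u ∈ U → -u ∈ U := by
      intro u hu
      show X (-u) ∈ M
      rw [h1]
      exact hsym _ hu
    intro u
    exact ⟨fun hu => by simpa using h2 _ hu, h2 u⟩
  -- the Jacobians
  set dX : (Fin n → ℝ) → ℝ := fun u => ((1 / 4 : ℝ) • C K u + (1 / 4 : ℝ) • C K (-u)).det with hdX
  set dT : (Fin n → ℝ) → ℝ := fun u => ((1 / 2 : ℝ) • C K u + c • C K (-u)).det with hdT
  have hdXpos : ∀ u, 0 < dX u := fun u => (posDef_combo h (by norm_num) (by norm_num) u).det_pos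
  have hdTpos : ∀ u, 0 < dT u := fun u => (posDef_combo h (by norm_num) hc0 u).det_pos
  have cX : ∫⁻ u in U, ENNReal.ofReal (dX u) = volume M := by
    have := lintegral_abs_det_fderiv_eq_addHaar_image (volume : Measure (Fin n → ℝ)) hUm
      (f := X) (f' := fun u => mc ((1 / 4 : ℝ) • C K u + (1 / 4 : ℝ) • C K (-u)))
      (fun u _ => (hasFDerivAt_combo h _ _ u).hasFDerivWithinAt) hXinj.injOn
    rw [hXimg] at this
    rw [← this]
    refine lintegral_congr fun u => ?_
    rw [mc_det, abs_of_pos (hdXpos u)]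
  have cT : ∫⁻ u in U, ENNReal.ofReal (dT u) ≤ volume K := by
    have := lintegral_abs_det_fderiv_eq_addHaar_image (volume : Measure (Fin n → ℝ)) hUm
      (f := T) (f' := fun u => mc ((1 / 2 : ℝ) • C K u + c • C K (-u)))
      (fun u _ => (hasFDerivAt_combo h _ _ u).hasFDerivWithinAt) hTinj.injOn
    have h2 : volume ((fun x => x + (4 * c) • s) '' K) = volume K := by
      rw [image_add_right, measure_preimage_add_right]
    refine le_trans (le_of_eq ?_) ((measure_mono hTimg).trans h2.le)
    rw [← this]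
    refine lintegral_congr fun u => ?_
    rw [mc_det, abs_of_pos (hdTpos u)]
  have cT' : ∫⁻ u in U, ENNReal.ofReal (dT (-u)) = ∫⁻ u in U, ENNReal.ofReal (dT u) := by
    rw [← lintegral_indicator hUm, ← lintegral_indicator hUm]
    rw [← lintegral_neg_eq_self (fun u => U.indicator (fun u => ENNReal.ofReal (dT u)) u)]
    refine lintegral_congr fun u => ?_
    by_cases hu : u ∈ U
    · rw [indicator_of_mem hu, indicator_of_mem ((hUneg u).2 hu)]
    · rw [indicator_of_notMem hu, indicator_of_notMem (fun h => hu ((hUneg u).1 h))]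
  have hdTm : Measurable dT := by
    have h1 := continuous_C h
    have h2 : Continuous fun u => C K (-u) := h1.comp continuous_neg
    exact (((h1.const_smul (1 / 2 : ℝ)).add (h2.const_smul c)).matrix_det).measurable
  have key : ∀ u, √(8 * c) ^ n * dX u * 2 ≤ dT u + dT (-u) := by
    intro u
    have h1 := det_ineq (C_posDef h u) (C_posDef h (-u)) hc0
    have h2 : dX u = ((1 / 4 : ℝ) • (C K u + C K (-u))).det := by rw [smul_add]
    have h3 : dT (-u) = ((1 / 2 : ℝ) • C K (-u) + c • C K u).det := by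
      simp only [hdT, neg_neg]
    rw [← h2, ← h3] at h1
    have h4 : (√(8 * c) ^ n) ^ 2 = (8 * c) ^ n := by
      rw [← pow_mul, mul_comm n 2, pow_mul, Real.sq_sqrt (by positivity)]
    have h5 : (√(8 * c) ^ n * dX u) ^ 2 ≤ dT u * dT (-u) := by
      rw [mul_pow, h4]; exact h1
    have h6 : 0 ≤ √(8 * c) ^ n * dX u := mul_nonneg (by positivity) (hdXpos u).le
    have h7 := hdTpos u
    have h8 := hdTpos (-u)
    nlinarith [sq_nonneg (dT u - dT (-u))]
  have h2 : 2 * (ENNReal.ofReal (√(8 * c) ^ n) * volume M) ≤ 2 * volume K := by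
    calc 2 * (ENNReal.ofReal (√(8 * c) ^ n) * volume M)
        = ∫⁻ u in U, 2 * (ENNReal.ofReal (√(8 * c) ^ n) * ENNReal.ofReal (dX u)) := by
          rw [← cX, lintegral_const_mul' _ _ (by norm_num),
            lintegral_const_mul' _ _ ENNReal.ofReal_ne_top]
      _ ≤ ∫⁻ u in U, (ENNReal.ofReal (dT u) + ENNReal.ofReal (dT (-u))) := by
          refine lintegral_mono fun u => ?_
          rw [← ENNReal.ofReal_mul (by positivity), ← ENNReal.ofReal_add (hdTpos u).le (hdTpos _).le,
            show (2 : ENNReal) = ENNReal.ofReal 2 by norm_num, ← ENNReal.ofReal_mul (by norm_num)]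
          refine ENNReal.ofReal_le_ofReal ?_
          have := key u
          linarith
      _ = (∫⁻ u in U, ENNReal.ofReal (dT u)) + ∫⁻ u in U, ENNReal.ofReal (dT (-u)) :=
          lintegral_add_left hdTm.ennreal_ofReal _
      _ ≤ 2 * volume K := by
          rw [cT', two_mul]; exact add_le_add cT cT
  exact (ENNReal.mul_le_mul_iff_right (by norm_num) (by norm_num)).1 h2

end Pool.Agent.H798.NM
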